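import Pool.Agent.H91.OC.Step
import Pool.Agent.H8.RG.Ker

set_option autoImplicit false

/-!
# The improved second contraction bound in odd codegree
-/

namespace Pool.Agent.H91.OC

open Pool.Agent.H61.YP Pool.Agent.H8.RG
open scoped BigOperators RealInnerProductSpace
open Matrix

variable {n : ℕ}

lemma Lives.one {q : ℕ} (ω : Form n (q + 1)) : Lives (1 : Matrix (Fin n) (Fin n) ℝ) ω := by
  intro i
  rw [Finset.sum_eq_single i]
  · simp
  · intro a _ ha
    rw [Matrix.one_apply_ne ha, zero_smul]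
  · simp

lemma Lives.sub {P : Matrix (Fin n) (Fin n) ℝ} {q : ℕ} {ω : Form n (q + 1)}
    (h : Lives P ω) (x : Fin n → ℝ) (hx : ω.curryLeft (vec x) = 0) :
    Lives (P - vecMulVec x x) ω := by
  intro i
  have h0 : ∑ a, x a • ω.curryLeft (e a) = 0 := by
    rw [← hx]
    conv_rhs => rw [← sum_coord (vec x)]
    simp only [map_sum, map_smul, vec_apply]
  have h1 : ∀ a, (P - vecMulVec x x) a i • ω.curryLeft (e a)
      = P a i • ω.curryLeft (e a) - x i • (x a • ω.curryLeft (e a)) := by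
    intro a
    have h2 : (P - vecMulVec x x) a i = P a i - x i * x a := by
      simp only [Matrix.sub_apply, vecMulVec_apply]
      ring
    rw [h2, smul_smul]
    exact sub_smul (P a i) (x i * x a) (ω.curryLeft (e a))
  simp_rw [h1, Finset.sum_sub_distrib, ← Finset.smul_sum]
  rw [h0, h i, smul_zero, sub_zero]

/-- a 2-form on an odd-dimensional space has a kernel vector -/
lemma exists_ker {P : Matrix (Fin n) (Fin n) ℝ} {N : ℕ} (hP : IsPr P N) (hN : Odd N)
    (ω : Form n 2) (hL : Lives P ω) :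
    ∃ v : Fin n → ℝ, P *ᵥ v = v ∧ v ⬝ᵥ v = 1 ∧ ω.curryLeft (vec v) = 0 := by
  let A : Matrix (Fin n) (Fin n) ℝ := fun i j => ω.curryLeft (e j) ![e i]
  have hskew : A.transpose = -A := by
    ext i j
    change ω.curryLeft (e i) ![e j] = - ω.curryLeft (e j) ![e i]
    have h := curry_swap ω (e i) (e j)
    have h1 : ∀ x y : E n, ((ω.curryLeft x).curryLeft y) ![] = ω.curryLeft x ![y] := by
      intro x y
      rw [AlternatingMap.curryLeft_apply_apply]
    have h2 := congrArg (fun φ : Form n 0 => φ ![]) h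
    simp only [AlternatingMap.neg_apply] at h2
    rw [h1, h1] at h2
    exact h2
  have hAP : A * P = A := by
    ext i j
    rw [Matrix.mul_apply]
    change ∑ a, ω.curryLeft (e a) ![e i] * P a j = ω.curryLeft (e j) ![e i]
    rw [← hL j]
    let L : Form n 1 →ₗ[ℝ] ℝ :=
      { toFun := fun φ => φ ![e i]
        map_add' := fun φ ψ => rfl
        map_smul' := fun c φ => rfl }
    change _ = L (∑ a, P a j • ω.curryLeft (e a))
    rw [map_sum]
    refine Finset.sum_congr rfl fun a _ => ?_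
    rw [map_smul, smul_eq_mul, mul_comm]
    rfl
  have hPA : P * A = A := by
    have h1 := congrArg Matrix.transpose hAP
    rw [Matrix.transpose_mul, hP.symm, hskew, Matrix.mul_neg] at h1
    exact neg_injective h1
  set M : Matrix (Fin n) (Fin n) ℝ := A + (1 - P) with hM
  have hMT : M.transpose = M * (1 - (2 : ℝ) • P) := by
    rw [hM, Matrix.transpose_add, Matrix.transpose_sub, Matrix.transpose_one, hP.symm, hskew]
    rw [Matrix.mul_sub, Matrix.mul_one, Matrix.mul_smul, Matrix.add_mul, Matrix.sub_mul,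
      Matrix.one_mul, hP.idem, hAP, sub_self, add_zero, two_smul]
    abel
  have hdet : M.det = 0 := by
    have h1 : M.det = M.det * (-1) ^ N := by
      conv_lhs => rw [← Matrix.det_transpose, hMT, Matrix.det_mul, hP.det]
    rw [hN.neg_one_pow] at h1
    linarith
  obtain ⟨v, hv0, hv⟩ := Matrix.exists_mulVec_eq_zero_iff.mpr hdet
  have hAv : A *ᵥ v = 0 := by
    have h1 := congrArg (fun u => P *ᵥ u) hv
    simp only [Matrix.mulVec_zero, Matrix.mulVec_mulVec] at h1
    rw [hM, Matrix.mul_add, Matrix.mul_sub, Matrix.mul_one, hP.idem, hPA, sub_self,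
      add_zero] at h1
    exact h1
  have hPv : P *ᵥ v = v := by
    rw [hM, Matrix.add_mulVec, hAv, zero_add, Matrix.sub_mulVec, Matrix.one_mulVec] at hv
    exact (sub_eq_zero.mp hv).symm
  have hker : ω.curryLeft (vec v) = 0 := by
    refine Module.Basis.ext_alternating (EuclideanSpace.basisFun (Fin n) ℝ).toBasis
      fun w _ => ?_
    have hb : ∀ i, (EuclideanSpace.basisFun (Fin n) ℝ).toBasis i = (e i : E n) := by
      intro i; simp [e]
    simp only [hb]
    have h2 : (fun k : Fin 1 => (e (w k) : E n)) = ![e (w 0)] := by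
      funext k
      have : k = 0 := Subsingleton.elim _ _
      subst this
      rfl
    rw [h2]
    let L : E n →ₗ[ℝ] ℝ :=
      { toFun := fun x => ω.curryLeft x ![e (w 0)]
        map_add' := fun x y => by rw [map_add]; rfl
        map_smul' := fun c x => by rw [map_smul]; rfl }
    have h3 : ω.curryLeft (vec v) ![e (w 0)] = ∑ j, v j * ω.curryLeft (e j) ![e (w 0)] :=
      CurvTensor.lin_sum L (vec v)
    rw [h3]
    have h4 := congrFun hAv (w 0)
    simp only [Matrix.mulVec, dotProduct, Pi.zero_apply] at h4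
    rw [AlternatingMap.zero_apply, ← h4]
    refine Finset.sum_congr rfl fun j _ => ?_
    rw [mul_comm]
  have hS : 0 < v ⬝ᵥ v := by
    have h3 : 0 ≤ v ⬝ᵥ v := Finset.sum_nonneg fun i _ => mul_self_nonneg _
    have h4 : v ⬝ᵥ v ≠ 0 := fun h5 => hv0 (dotProduct_self_eq_zero.mp h5)
    exact lt_of_le_of_ne h3 (Ne.symm h4)
  refine ⟨(Real.sqrt (v ⬝ᵥ v))⁻¹ • v, ?_, ?_, ?_⟩
  · rw [Matrix.mulVec_smul, hPv]
  · rw [smul_dotProduct, dotProduct_smul, smul_eq_mul, smul_eq_mul, ← mul_assoc, ← sq, inv_pow,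
      Real.sq_sqrt hS.le, inv_mul_cancel₀ hS.ne']
  · have hv' : (vec ((Real.sqrt (v ⬝ᵥ v))⁻¹ • v) : E n) = (Real.sqrt (v ⬝ᵥ v))⁻¹ • vec v := by
      ext i; simp
    rw [hv', map_smul, hker, smul_zero]

/-- **The improved second contraction bound**, for a form of degree `q + 2` on the range of a
projection of rank `k + q + 2`, `k` odd. -/
theorem chain {w : Fin n → Fin n → Fin n → Fin n → ℝ} (h : IsCurv w)
    (hpos : ∀ x v : Fin n → ℝ,
      0 ≤ ∑ j, ∑ k, v j * v k * (∑ i, ∑ l, x i * x l * w i j k l))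
    (k : ℕ) (hk : Odd k) : ∀ (q : ℕ) (P : Matrix (Fin n) (Fin n) ℝ), IsPr P (k + q + 2) →
      ∀ ω : Form n (q + 2), Lives P ω →
      3 * (((k : ℝ) + 4 + q * (k + 3)) / ((k + 2) * (k + 4)) * QA w ω) ≤ rP w P ω := by
  have k2 : (0 : ℝ) < (k : ℝ) + 2 := by positivity
  have k4 : (0 : ℝ) < (k : ℝ) + 4 := by positivity
  intro q
  induction q with
  | zero =>
    intro P hP ω hL
    obtain ⟨v, hv, hv1, hv0⟩ := exists_ker hP (by
      obtain ⟨m, hm⟩ := hk
      exact ⟨m + 1, by omega⟩) ω hL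
    have hP' : IsPr (P - vecMulVec v v) (k + 1) := IsPr.sub (N := k + 1) hP v hv hv1
    have h1 := univ h hpos hP' ω (hL.sub v hv0)
    rw [rP_sub] at h1
    have h2 := tW_nonneg h hpos v ω
    push_cast at h1 ⊢
    have h3 : 3 * QA w ω ≤ ((k : ℝ) + 2) * rP w P ω := by nlinarith
    have h4 : 3 * (((k : ℝ) + 4 + 0 * (k + 3)) / ((k + 2) * (k + 4)) * QA w ω)
        = (3 * QA w ω) / (k + 2) := by
      field_simp
      ring
    rw [h4, div_le_iff₀ k2]
    linarith
  | succ q ih =>
    intro P hP ω hL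
    set U : ℝ := ((k : ℝ) + 4 + q * (k + 3)) / ((k + 2) * (k + 4)) with hU
    have h1 := step h (N := k + (q + 1) + 2) hP ω hL U (fun x hx hx1 => by
      have hP' : IsPr (P - vecMulVec x x) (k + q + 2) := IsPr.sub (N := k + q + 2) hP x hx hx1
      have hL' : Lives (P - vecMulVec x x) (ω.curryLeft (vec x)) :=
        (hL.curry (vec x)).sub x (AlternatingMap.curryLeft_same ω (vec x))
      exact ih _ hP' _ hL')
    push_cast at h1 ⊢
    have hN : (0 : ℝ) < (k : ℝ) + (q + 1) + 2 + 1 := by positivity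
    have h2 : ((k : ℝ) + 4 + (q + 1) * (k + 3)) / ((k + 2) * (k + 4))
        = (((k : ℝ) + (q + 1) + 2 + 2) * U + 1) / ((k : ℝ) + (q + 1) + 2 + 1) := by
      rw [hU]
      field_simp
      ring
    rw [h2]
    have h3 : 3 * ((((k : ℝ) + (q + 1) + 2 + 2) * U + 1) / ((k : ℝ) + (q + 1) + 2 + 1) * QA w ω)
        = (3 * ((((k : ℝ) + (q + 1) + 2 + 2) * U + 1) * QA w ω)) / ((k : ℝ) + (q + 1) + 2 + 1) := by
      ring
    rw [h3, div_le_iff₀ hN, mul_comm (rP w P ω)]
    exact h1

lemma rP_one {q : ℕ} (w : Fin n → Fin n → Fin n → Fin n → ℝ) (ω : Form n (q + 1)) :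
    rP w (1 : Matrix (Fin n) (Fin n) ℝ) ω = rA w ω := by
  unfold rP rA ricA
  refine Finset.sum_congr rfl fun j _ => Finset.sum_congr rfl fun k _ => ?_
  congr 1
  refine Finset.sum_congr rfl fun i _ => ?_
  rw [Finset.sum_eq_single i]
  · simp
  · intro l _ hl
    rw [Matrix.one_apply_ne (Ne.symm hl), zero_mul]
  · simp

end Pool.Agent.H91.OC
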