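import Pool.Agent.H61.YP.Main

set_option autoImplicit false

/-!
# The core inequality with general weights
-/

namespace Pool.Agent.H91.OC

open Pool.Agent.H61.YP
open scoped BigOperators RealInnerProductSpace

variable {n : ℕ}

/-- **Core inequality**, general weights `α + β = 1`. -/
theorem core_gen {q : ℕ} {w : Fin n → Fin n → Fin n → Fin n → ℝ} (h : IsCurv w)
    (hpos : ∀ x v : Fin n → ℝ,
      0 ≤ ∑ j, ∑ k, v j * v k * (∑ i, ∑ l, x i * x l * w i j k l))
    (ω : Form n (q + 2)) (α β : ℝ) (hα : 0 ≤ α) (hβ : 0 ≤ β) (hαβ : α + β = 1) :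
    0 ≤ α * (scalA w * ip ω ω) + (β * n - ((q : ℝ) + 1)) * rA w ω
      + (2 * rA w ω - ((q : ℝ) + 1) * (3 * QA w ω)) := by
  have hm := moment (κ := Fin n × Fin n) (fun m i l => w i m.1 m.2 l)
    (fun m a b => Ym ω α β a b m.1 m.2) (fun x => by
      rw [Fintype.sum_prod_type]
      refine sum_mul_nonneg (fun j k => ∑ i, ∑ l, x i * x l * w i j k l)
        (fun j k => ∑ a, ∑ b, x a * x b * Ym ω α β a b j k) ?_ (hpos x) ?_
        (Y_nonneg ω α β hα hβ hαβ x)
      · intro j k
        rw [Finset.sum_comm]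
        refine Finset.sum_congr rfl fun i _ => Finset.sum_congr rfl fun l _ => ?_
        rw [h.flip l j k i]; ring
      · intro j k
        rw [Ym_expand, Ym_expand, dl_comm j k, MB_comm ω (e j), MB_comm _ (e j)])
  rw [Fintype.sum_prod_type] at hm
  simp only at hm
  have hT1 : ∀ j k : Fin n, ∑ a, Ym ω α β a a j k
      = α * (ip ω ω * dl j k) + (β * n - ((q : ℝ) + 1)) * MB ω (e j) (e k) := by
    intro j k
    unfold Ym
    rw [Finset.sum_sub_distrib, Finset.sum_add_distrib, ← Finset.mul_sum, ← Finset.mul_sum,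
      ← Finset.mul_sum, ← Finset.sum_mul, ← Finset.sum_mul, trace_MB, Gm_trace]
    have : ∑ i : Fin n, dl i i = n := by simp [dl]
    rw [this]; ring
  have hfirst : ∑ j, ∑ k, (∑ i, w i j k i) * (∑ a, Ym ω α β a a j k)
      = α * (scalA w * ip ω ω) + (β * n - ((q : ℝ) + 1)) * rA w ω := by
    simp_rw [hT1]
    have : ∀ j k : Fin n, (∑ i, w i j k i) *
        (α * (ip ω ω * dl j k) + (β * n - ((q : ℝ) + 1)) * MB ω (e j) (e k))
        = α * ip ω ω * (ricA w j k * dl j k)
          + (β * n - ((q : ℝ) + 1)) * (ricA w j k * MB ω (e j) (e k)) := by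
      intro j k; unfold ricA; ring
    simp_rw [this, Finset.sum_add_distrib, ← Finset.mul_sum]
    have h1 : ∑ j, ∑ k, ricA w j k * dl j k = scalA w := by
      unfold scalA
      refine Finset.sum_congr rfl fun j _ => ?_
      simp [dl]
    rw [h1]
    unfold rA
    ring
  have hsecond : ∑ j, ∑ k, ∑ i, ∑ l, w i j k l * (Ym ω α β i l j k + Ym ω α β l i j k)
      = (2 * α + 2 * β) * rA w ω - ((q : ℝ) + 1) * (3 * QA w ω) := by
    have hexp : ∀ j k i l : Fin n, w i j k l * (Ym ω α β i l j k + Ym ω α β l i j k)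
        = 2 * α * (dl j k * w i j k l * MB ω (e i) (e l))
          + 2 * β * (dl i l * w i j k l * MB ω (e j) (e k))
          - ((q : ℝ) + 1) * (w i j k l * Gm ω i j l k)
          - ((q : ℝ) + 1) * (w i j k l * Gm ω l j i k) := by
      intro j k i l
      unfold Ym
      rw [MB_comm ω (e l) (e i), dl_comm l i]
      ring
    simp_rw [hexp, Finset.sum_sub_distrib, Finset.sum_add_distrib, ← Finset.mul_sum]
    have s1 : ∑ j, ∑ k, ∑ i, ∑ l, dl j k * w i j k l * MB ω (e i) (e l) = rA w ω := by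
      have a1 : ∀ j : Fin n, ∑ k, ∑ i, ∑ l, dl j k * w i j k l * MB ω (e i) (e l)
          = ∑ i, ∑ l, w i j j l * MB ω (e i) (e l) := by
        intro j
        rw [Finset.sum_eq_single j]
        · simp [dl]
        · intro k _ hk
          simp [dl, Ne.symm hk]
        · simp
      simp_rw [a1]
      rw [Finset.sum_comm]
      unfold rA
      refine Finset.sum_congr rfl fun i _ => ?_
      rw [Finset.sum_comm]
      refine Finset.sum_congr rfl fun l _ => ?_
      rw [← Finset.sum_mul, ricA_eq h]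
    have s2 : ∑ j, ∑ k, ∑ i, ∑ l, dl i l * w i j k l * MB ω (e j) (e k) = rA w ω := by
      unfold rA ricA
      refine Finset.sum_congr rfl fun j _ => Finset.sum_congr rfl fun k _ => ?_
      rw [Finset.sum_mul]
      refine Finset.sum_congr rfl fun i _ => ?_
      simp [dl]
    have perm : ∀ f : Fin n → Fin n → Fin n → Fin n → ℝ,
        ∑ j, ∑ k, ∑ i, ∑ l, f i j k l = ∑ i, ∑ j, ∑ k, ∑ l, f i j k l := by
      intro f
      rw [rot3 (fun i j k l => f i j k l)]
    have s3 : ∑ j, ∑ k, ∑ i, ∑ l, w i j k l * Gm ω i j l k = 2 * QA w ω := by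
      rw [perm (fun i j k l => w i j k l * Gm ω i j l k), H4_eq h]
    have s4 : ∑ j, ∑ k, ∑ i, ∑ l, w i j k l * Gm ω l j i k = QA w ω := by
      rw [perm (fun i j k l => w i j k l * Gm ω l j i k)]; rfl
    rw [s1, s2, s3, s4]
    ring
  simp_rw [Finset.sum_add_distrib] at hm
  rw [hfirst, hsecond] at hm
  have h2 : 2 * α + 2 * β = 2 := by linarith
  rw [h2] at hm
  exact hm

/-- the first contraction bound: `3 (q+1) Q ≤ s |ω|² + (1 - q) r`. -/
theorem coreA {q : ℕ} {w : Fin n → Fin n → Fin n → Fin n → ℝ} (h : IsCurv w)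
    (hpos : ∀ x v : Fin n → ℝ,
      0 ≤ ∑ j, ∑ k, v j * v k * (∑ i, ∑ l, x i * x l * w i j k l))
    (ω : Form n (q + 2)) :
    3 * (((q : ℝ) + 1) * QA w ω) ≤ scalA w * ip ω ω + (1 - (q : ℝ)) * rA w ω := by
  have h1 := core_gen h hpos ω 1 0 zero_le_one le_rfl (by norm_num)
  linarith

end Pool.Agent.H91.OC
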