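import Pool.Agent.H91.OC.Chain
import Pool.Agent.H91.OC.CoreA
import Pool.Agent.H8.RG.CP

set_option autoImplicit false

/-!
# The Weitzenböck operator in odd codegree
-/

namespace Pool.Agent.H91.OC

open Pool.Agent.H61.YP Pool.Agent.H8.RG
open scoped BigOperators RealInnerProductSpace

variable {n : ℕ}

/-- the constant `a(n,p)` of the lower bound, `k = n - p` -/
noncomputable def co (n p : ℕ) : ℝ :=
  (((p : ℝ) - 1) * (((n : ℝ) - p) ^ 2 + 3 * ((n : ℝ) - p) - 1) - 3)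
    / (((p : ℝ) - 1) * n * ((n : ℝ) - p + 3) - 2)

lemma co_eq (k q : ℕ) : co (k + q + 2) (q + 2)
    = (((q : ℝ) + 1) * ((k : ℝ) ^ 2 + 3 * k - 1) - 3)
      / (((q : ℝ) + 1) * ((k : ℝ) + q + 2) * ((k : ℝ) + 3) - 2) := by
  unfold co
  push_cast
  congr 1 <;> ring

section num
variable (k q : ℕ)

lemma num_nonneg (hk : 1 ≤ k) : (0 : ℝ) ≤ ((q : ℝ) + 1) * ((k : ℝ) ^ 2 + 3 * k - 1) - 3 := by
  have h1 : (1 : ℝ) ≤ k := by exact_mod_cast hk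
  have h2 : (0 : ℝ) ≤ q := Nat.cast_nonneg q
  nlinarith [mul_nonneg h2 (sub_nonneg.mpr h1), mul_nonneg h2 (sq_nonneg (k : ℝ))]

lemma den_pos (hk : 1 ≤ k) :
    (0 : ℝ) < ((q : ℝ) + 1) * ((k : ℝ) + q + 2) * ((k : ℝ) + 3) - 2 := by
  have h1 : (1 : ℝ) ≤ k := by exact_mod_cast hk
  have h2 : (0 : ℝ) ≤ q := Nat.cast_nonneg q
  have h3 : (3 : ℝ) ≤ ((q : ℝ) + 1) * ((k : ℝ) + q + 2) := by nlinarith
  nlinarith

end num

/-- lower bound in components -/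
theorem key {w : Fin n → Fin n → Fin n → Fin n → ℝ} (h : IsCurv w)
    (hpos : ∀ x v : Fin n → ℝ,
      0 ≤ ∑ j, ∑ k, v j * v k * (∑ i, ∑ l, x i * x l * w i j k l))
    (k q : ℕ) (hk : Odd k) (hn : n = k + q + 2) (ω : Form n (q + 2)) :
    0 ≤ 3 * (rA w ω - ((q : ℝ) + 1) * QA w ω) + co n (q + 2) * (scalA w * ip ω ω) := by
  have hk1 : 1 ≤ k := hk.pos
  have hA := coreA h hpos ω
  have hB := chain h hpos k hk q 1 (hn ▸ IsPr.one) ω (Lives.one ω)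
  rw [rP_one] at hB
  have hco : co n (q + 2) = (((q : ℝ) + 1) * ((k : ℝ) ^ 2 + 3 * k - 1) - 3)
      / (((q : ℝ) + 1) * ((k : ℝ) + q + 2) * ((k : ℝ) + 3) - 2) := by
    rw [hn]; exact co_eq k q
  rw [hco]
  have hden := den_pos k q hk1
  have hnum := num_nonneg k q hk1
  set a : ℝ := (((q : ℝ) + 1) * ((k : ℝ) ^ 2 + 3 * k - 1) - 3)
      / (((q : ℝ) + 1) * ((k : ℝ) + q + 2) * ((k : ℝ) + 3) - 2) with ha
  have ha0 : 0 ≤ a := div_nonneg hnum hden.le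
  have h2 : (0 : ℝ) ≤ q := Nat.cast_nonneg q
  have h1 : (1 : ℝ) ≤ k := by exact_mod_cast hk1
  have ha3 : a ≤ 3 := by
    rw [ha, div_le_iff₀ hden]
    nlinarith [mul_nonneg h2 (sub_nonneg.mpr h1), mul_nonneg h2 h2,
      mul_nonneg (mul_nonneg h2 h2) (sub_nonneg.mpr h1),
      mul_nonneg h2 (mul_nonneg (sub_nonneg.mpr h1) (sub_nonneg.mpr h1)),
      mul_nonneg (sub_nonneg.mpr h1) (sub_nonneg.mpr h1)]
  have hmu : 0 ≤ 3 + a * ((q : ℝ) - 1) := by nlinarith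
  set U : ℝ := ((k : ℝ) + 4 + q * (k + 3)) / ((k + 2) * (k + 4)) with hU
  have hid : ((q : ℝ) + 1) * a + U * (3 + a * ((q : ℝ) - 1)) = (q : ℝ) + 1 := by
    have hW : (0 : ℝ) < ((k : ℝ) + 2) * ((k : ℝ) + 4) := by positivity
    have haD : a * (((q : ℝ) + 1) * ((k : ℝ) + q + 2) * ((k : ℝ) + 3) - 2)
        = ((q : ℝ) + 1) * ((k : ℝ) ^ 2 + 3 * k - 1) - 3 := by
      rw [ha]; exact div_mul_cancel₀ _ hden.ne'
    have hUW : U * (((k : ℝ) + 2) * ((k : ℝ) + 4)) = (k : ℝ) + 4 + q * (k + 3) := by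
      rw [hU]; exact div_mul_cancel₀ _ hW.ne'
    apply mul_right_cancel₀ (mul_ne_zero hden.ne' hW.ne')
    calc (((q : ℝ) + 1) * a + U * (3 + a * ((q : ℝ) - 1)))
          * ((((q : ℝ) + 1) * ((k : ℝ) + q + 2) * ((k : ℝ) + 3) - 2)
            * (((k : ℝ) + 2) * ((k : ℝ) + 4)))
        = ((q : ℝ) + 1) * (a * (((q : ℝ) + 1) * ((k : ℝ) + q + 2) * ((k : ℝ) + 3) - 2))
            * (((k : ℝ) + 2) * ((k : ℝ) + 4))
          + (U * (((k : ℝ) + 2) * ((k : ℝ) + 4)))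
            * (3 * (((q : ℝ) + 1) * ((k : ℝ) + q + 2) * ((k : ℝ) + 3) - 2)
              + (a * (((q : ℝ) + 1) * ((k : ℝ) + q + 2) * ((k : ℝ) + 3) - 2))
                * ((q : ℝ) - 1)) := by ring
      _ = ((q : ℝ) + 1) * ((((q : ℝ) + 1) * ((k : ℝ) + q + 2) * ((k : ℝ) + 3) - 2)
            * (((k : ℝ) + 2) * ((k : ℝ) + 4))) := by
          rw [haD, hUW]; ring
  have e1 := mul_le_mul_of_nonneg_left hA ha0
  have e2 := mul_le_mul_of_nonneg_left hB hmu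
  have e3 : a * (3 * (((q : ℝ) + 1) * QA w ω)) + (3 + a * ((q : ℝ) - 1)) * (3 * (U * QA w ω))
      = 3 * ((((q : ℝ) + 1) * a + U * (3 + a * ((q : ℝ) - 1))) * QA w ω) := by ring
  rw [hid] at e3
  nlinarith [e1, e2, e3]

/-- **Lower bound for the Weitzenböck operator in odd codegree.** -/
theorem lower_odd_codegree (k q : ℕ) (hk : Odd k) (hn : n = k + q + 2) (R : CurvTensor n) (c : ℝ)
    (hc : SecGe R c) (ω : Form n (q + 2)) :
    ((q : ℝ) + 2) * (((k : ℝ) * c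
      - co n (q + 2) / 3 * (R.scal - (n : ℝ) * (n - 1) * c)) * ip ω ω) ≤ R.weitzForm ω := by
  have h' := R.sec_ext c hc
  have hc' := key (R.wA_isCurv c) (R.wA_pos c h') k q hk hn ω
  rw [CurvTensor.rA_wA, CurvTensor.QA_wA, CurvTensor.scalA_wA, ← CurvTensor.scal_eq] at hc'
  rw [CurvTensor.weitzForm_comp]
  have hq0 : (0 : ℝ) ≤ (q : ℝ) := Nat.cast_nonneg q
  apply mul_le_mul_of_nonneg_left _ (by linarith : (0 : ℝ) ≤ (q : ℝ) + 2)
  have hnr : (n : ℝ) = k + q + 2 := by rw [hn]; push_cast; ring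
  have h3 : ((k : ℝ) * c) * ip ω ω = c * (((n : ℝ) - 1) * ip ω ω)
      - ((q : ℝ) + 1) * (c * ip ω ω) := by
    rw [hnr]; ring
  nlinarith [hc', h3]

end Pool.Agent.H91.OC
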