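import Pool.Agent.H91.OC.Main

set_option autoImplicit false

/-!
# Positivity under scalar normalised pinching, odd codegree
-/

namespace Pool.Agent.H91.OC

open Pool.Agent.H61.YP Pool.Agent.H8.RG
open scoped BigOperators RealInnerProductSpace

variable {n : ℕ}

/-- the scalar curvature is at least `n (n - 1) c` if the sectional curvatures are at least `c` -/
lemma scal_ge (R : CurvTensor n) (c : ℝ) (hc : SecGe R c) :
    (n : ℝ) * (n - 1) * c ≤ R.scal := by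
  have h' := R.sec_ext c hc
  have hpos := R.wA_pos c h'
  have h1 : 0 ≤ scalA (R.wA c) := by
    unfold scalA ricA
    refine Finset.sum_nonneg fun j _ => Finset.sum_nonneg fun i _ => ?_
    have h2 := hpos (fun m => if m = i then 1 else 0) (fun m => if m = j then 1 else 0)
    simpa using h2
  rw [CurvTensor.scalA_wA, ← CurvTensor.scal_eq] at h1
  linarith

/-- positivity from a comparison of constants -/
theorem pos_of (k q : ℕ) (hk : Odd k) (hn : n = k + q + 2) (κ : ℝ) (hκ0 : 0 ≤ κ)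
    (hκ1 : κ * ((n : ℝ) * (n - 1)) < 1)
    (hκ : co n (q + 2) * (1 - κ * ((n : ℝ) * (n - 1))) ≤ 3 * k * κ)
    (R : CurvTensor n) (h : SecGt R (κ * R.scal)) (ω : Form n (q + 2)) (hω : ω ≠ 0) :
    0 < R.weitzForm ω := by
  have hk1 : 1 ≤ k := hk.pos
  have hn2 : 2 ≤ n := by omega
  obtain ⟨c, hc, hmin⟩ := R.exists_min hn2 _ h
  have h1 := lower_odd_codegree k q hk hn R c hmin ω
  refine lt_of_lt_of_le ?_ h1
  have h2 := CurvTensor.ip_pos ω hω
  have h3 := scal_ge R c hmin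
  have hkr : (1 : ℝ) ≤ k := by exact_mod_cast hk1
  have hqr : (0 : ℝ) ≤ q := Nat.cast_nonneg q
  have hn1 : (0 : ℝ) ≤ (n : ℝ) * (n - 1) := by
    have : (2 : ℝ) ≤ n := by exact_mod_cast hn2
    nlinarith
  have ha0 : 0 ≤ co n (q + 2) := by
    rw [hn, co_eq]
    exact div_nonneg (num_nonneg k q hk1) (den_pos k q hk1).le
  -- `c` is positive
  have hc0 : 0 < c := by
    have h4 : κ * ((n : ℝ) * (n - 1) * c) ≤ κ * R.scal := mul_le_mul_of_nonneg_left h3 hκ0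
    have h5 : 0 < c * (1 - κ * ((n : ℝ) * (n - 1))) := by
      have : c * (1 - κ * ((n : ℝ) * (n - 1))) = c - κ * ((n : ℝ) * (n - 1) * c) := by ring
      rw [this]
      have hc' : κ * R.scal < c := hc
      linarith
    exact pos_of_mul_pos_left h5 (by linarith)
  have hs0 : 0 ≤ R.scal - (n : ℝ) * (n - 1) * c := by linarith
  have h6 : 0 < (k : ℝ) * c - co n (q + 2) / 3 * (R.scal - (n : ℝ) * (n - 1) * c) := by
    by_cases hs : R.scal - (n : ℝ) * (n - 1) * c = 0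
    · rw [hs, mul_zero, sub_zero]
      positivity
    · have hs1 : 0 < R.scal - (n : ℝ) * (n - 1) * c := lt_of_le_of_ne hs0 (Ne.symm hs)
      have hc' : κ * R.scal < c := hc
      -- κ (scal - n(n-1)c) < c (1 - κ n (n-1))
      have h7 : κ * (R.scal - (n : ℝ) * (n - 1) * c) < c * (1 - κ * ((n : ℝ) * (n - 1))) := by
        nlinarith
      have hden : 0 < 1 - κ * ((n : ℝ) * (n - 1)) := by linarith
      have h8 : co n (q + 2) * (1 - κ * ((n : ℝ) * (n - 1)))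
          * (R.scal - (n : ℝ) * (n - 1) * c)
          ≤ 3 * k * (κ * (R.scal - (n : ℝ) * (n - 1) * c)) := by
        have := mul_le_mul_of_nonneg_right hκ hs0
        linarith
      have h9 : 3 * k * (κ * (R.scal - (n : ℝ) * (n - 1) * c))
          < 3 * k * (c * (1 - κ * ((n : ℝ) * (n - 1)))) :=
        mul_lt_mul_of_pos_left h7 (by linarith)
      have h10 : (co n (q + 2) * (R.scal - (n : ℝ) * (n - 1) * c))
          * (1 - κ * ((n : ℝ) * (n - 1))) < (3 * k * c) * (1 - κ * ((n : ℝ) * (n - 1))) := by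
        linarith
      have h11 := lt_of_mul_lt_mul_right h10 hden.le
      linarith
  have h12 : 0 < (q : ℝ) + 2 := by linarith
  positivity

/-- the comparison for the constant `(n-3)/(n^3-n^2-6n+3)` -/
lemma cmp_all (k q : ℕ) (hk : 1 ≤ k) :
    (((k + q + 2 : ℕ) : ℝ) - 3) * (1 : ℝ) ≥ 0 ∧
    (0 : ℝ) < ((k + q + 2 : ℕ) : ℝ) ^ 3 - ((k + q + 2 : ℕ) : ℝ) ^ 2
      - 6 * ((k + q + 2 : ℕ) : ℝ) + 3 := by
  have hkr : (1 : ℝ) ≤ k := by exact_mod_cast hk
  have hqr : (0 : ℝ) ≤ q := Nat.cast_nonneg q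
  push_cast
  refine ⟨by linarith, ?_⟩
  set m : ℝ := (k : ℝ) + q + 2 with hm
  have hm3 : 3 ≤ m := by linarith
  nlinarith [mul_nonneg (sub_nonneg.mpr hm3) (sub_nonneg.mpr hm3),
    mul_nonneg (mul_nonneg (sub_nonneg.mpr hm3) (sub_nonneg.mpr hm3)) (sub_nonneg.mpr hm3)]

theorem pos_all (k q : ℕ) (hk : Odd k) (hn : n = k + q + 2) (R : CurvTensor n)
    (h : SecGt R (((n : ℝ) - 3) / ((n : ℝ) ^ 3 - n ^ 2 - 6 * n + 3) * R.scal))
    (ω : Form n (q + 2)) (hω : ω ≠ 0) : 0 < R.weitzForm ω := by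
  have hk1 : 1 ≤ k := hk.pos
  have hkr : (1 : ℝ) ≤ k := by exact_mod_cast hk1
  have hqr : (0 : ℝ) ≤ q := Nat.cast_nonneg q
  have hnr : (n : ℝ) = k + q + 2 := by rw [hn]; push_cast; ring
  have hn3 : (3 : ℝ) ≤ n := by linarith
  have hD : (0 : ℝ) < (n : ℝ) ^ 3 - n ^ 2 - 6 * n + 3 := by
    have := (cmp_all k q hk1).2
    rwa [← hn] at this
  refine pos_of k q hk hn _ (div_nonneg (by linarith) hD.le) ?_ ?_ R h ω hω
  · rw [div_mul_eq_mul_div, div_lt_one hD]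
    nlinarith
  · rw [hn, co_eq]
    rw [← hn]
    have hden := den_pos k q hk1
    have e1 : 1 - ((n : ℝ) - 3) / ((n : ℝ) ^ 3 - n ^ 2 - 6 * n + 3) * ((n : ℝ) * (n - 1))
        = (3 * ((n : ℝ) ^ 2 - 3 * n + 1)) / ((n : ℝ) ^ 3 - n ^ 2 - 6 * n + 3) := by
      rw [div_mul_eq_mul_div, eq_div_iff hD.ne', sub_mul, one_mul, div_mul_cancel₀ _ hD.ne']
      ring
    rw [e1, div_mul_div_comm, ← mul_div_assoc, div_le_div_iff₀ (by positivity) hD]
    have e2 : (((q : ℝ) + 1) * ((k : ℝ) ^ 2 + 3 * k - 1) - 3) * ((n : ℝ) ^ 2 - 3 * n + 1)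
        ≤ k * ((n : ℝ) - 3)
          * (((q : ℝ) + 1) * ((k : ℝ) + q + 2) * ((k : ℝ) + 3) - 2) := by
      rw [hnr]
      nlinarith [mul_nonneg hqr (sub_nonneg.mpr hkr), mul_nonneg hqr hqr,
        mul_nonneg (mul_nonneg hqr hqr) hqr, mul_nonneg (mul_nonneg hqr hqr) (sub_nonneg.mpr hkr),
        mul_nonneg (sub_nonneg.mpr hkr) (sub_nonneg.mpr hkr)]
    nlinarith [mul_le_mul_of_nonneg_right e2 hD.le]

/-- the comparison for the constant `(n-3)/((n-1)(n^2-6))` -/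
theorem pos_sharp (k q : ℕ) (hk : Odd k) (hn : n = k + q + 2)
    (hq : q = 0 ∨ n ≤ 3 * (q + 2)) (R : CurvTensor n)
    (h : SecGt R (((n : ℝ) - 3) / (((n : ℝ) - 1) * (n ^ 2 - 6)) * R.scal))
    (ω : Form n (q + 2)) (hω : ω ≠ 0) : 0 < R.weitzForm ω := by
  have hk1 : 1 ≤ k := hk.pos
  have hkr : (1 : ℝ) ≤ k := by exact_mod_cast hk1
  have hqr : (0 : ℝ) ≤ q := Nat.cast_nonneg q
  have hnr : (n : ℝ) = k + q + 2 := by rw [hn]; push_cast; ring
  have hn3 : (3 : ℝ) ≤ n := by linarith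
  have hD : (0 : ℝ) < ((n : ℝ) - 1) * (n ^ 2 - 6) := by
    apply mul_pos (by linarith)
    nlinarith
  refine pos_of k q hk hn _ (div_nonneg (by linarith) hD.le) ?_ ?_ R h ω hω
  · rw [div_mul_eq_mul_div, div_lt_one hD]
    nlinarith
  · rw [hn, co_eq]
    rw [← hn]
    have hden := den_pos k q hk1
    have e1 : 1 - ((n : ℝ) - 3) / (((n : ℝ) - 1) * (n ^ 2 - 6)) * ((n : ℝ) * (n - 1))
        = (3 * (((n : ℝ) - 1) * (n - 2))) / (((n : ℝ) - 1) * (n ^ 2 - 6)) := by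
      rw [div_mul_eq_mul_div, eq_div_iff hD.ne', sub_mul, one_mul, div_mul_cancel₀ _ hD.ne']
      ring
    rw [e1, div_mul_div_comm, ← mul_div_assoc, div_le_div_iff₀ (by positivity) hD]
    have e0 : (0 : ℝ) ≤ q * (((q : ℝ) + 1) * ((q : ℝ) + 4) + (2 * (q : ℝ) + 1) * k
        - (k : ℝ) ^ 2) := by
      rcases hq with h0 | h3
      · rw [h0]; simp
      · rcases Nat.eq_zero_or_pos q with hq0 | hq0
        · rw [hq0]; simp
        · have hk3 : k ≤ 2 * q + 3 := by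
            obtain ⟨m, hm⟩ := hk
            omega
          have hk3r : (k : ℝ) ≤ 2 * q + 3 := by exact_mod_cast hk3
          have hq1 : (1 : ℝ) ≤ q := by exact_mod_cast hq0
          apply mul_nonneg hqr
          nlinarith [mul_nonneg (sub_nonneg.mpr hkr) (sub_nonneg.mpr hk3r)]
    have e2 : (((q : ℝ) + 1) * ((k : ℝ) ^ 2 + 3 * k - 1) - 3) * (((n : ℝ) - 1) * (n - 2))
        ≤ k * ((n : ℝ) - 3)
          * (((q : ℝ) + 1) * ((k : ℝ) + q + 2) * ((k : ℝ) + 3) - 2) := by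
      rw [hnr]
      have e3 : k * (((k : ℝ) + q + 2) - 3)
          * (((q : ℝ) + 1) * ((k : ℝ) + q + 2) * ((k : ℝ) + 3) - 2)
          - (((q : ℝ) + 1) * ((k : ℝ) ^ 2 + 3 * k - 1) - 3)
            * ((((k : ℝ) + q + 2) - 1) * (((k : ℝ) + q + 2) - 2))
          = q * (((q : ℝ) + 1) * ((q : ℝ) + 4) + (2 * (q : ℝ) + 1) * k - (k : ℝ) ^ 2) := by
        ring
      linarith
    nlinarith [mul_le_mul_of_nonneg_right e2 hD.le]

end Pool.Agent.H91.OC
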