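import Pool.Agent.H8.RG.Core2

set_option autoImplicit false

/-!
# Projections, the moment lemma on the range of a projection
-/

namespace Pool.Agent.H91.OC

open Pool.Agent.H61.YP Pool.Agent.H8.RG
open scoped BigOperators RealInnerProductSpace
open Matrix

variable {n : ℕ}

/-- `P` is the matrix of an orthogonal projection of rank `N` -/
structure IsPr (P : Matrix (Fin n) (Fin n) ℝ) (N : ℕ) : Prop where
  symm : P.transpose = P
  idem : P * P = P
  trace : P.trace = (N : ℝ)
  det : (1 - (2 : ℝ) • P).det = (-1) ^ N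

lemma IsPr.one : IsPr (1 : Matrix (Fin n) (Fin n) ℝ) n := by
  refine ⟨by simp, by simp, by simp, ?_⟩
  have h : (1 - (2 : ℝ) • (1 : Matrix (Fin n) (Fin n) ℝ)) = -1 := by
    rw [two_smul]; abel
  rw [h, Matrix.det_neg, Matrix.det_one, Fintype.card_fin, mul_one]

lemma IsPr.sub {P : Matrix (Fin n) (Fin n) ℝ} {N : ℕ} (hP : IsPr P (N + 1)) (v : Fin n → ℝ)
    (hv : P *ᵥ v = v) (h1 : v ⬝ᵥ v = 1) : IsPr (P - vecMulVec v v) N := by
  have hvP : v ᵥ* P = v := by
    rw [← Matrix.mulVec_transpose, hP.symm, hv]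
  have e1 : P * vecMulVec v v = vecMulVec v v := by rw [mul_vecMulVec, hv]
  have e2 : vecMulVec v v * P = vecMulVec v v := by rw [vecMulVec_mul, hvP]
  have e3 : vecMulVec v v * vecMulVec v v = vecMulVec v v := by
    rw [vecMulVec_mul_vecMulVec, h1, one_smul]
  refine ⟨?_, ?_, ?_, ?_⟩
  · rw [Matrix.transpose_sub, hP.symm, transpose_vecMulVec]
  · rw [Matrix.sub_mul, Matrix.mul_sub, Matrix.mul_sub, hP.idem, e1, e2, e3]; abel
  · rw [Matrix.trace_sub, hP.trace, trace_vecMulVec, h1]; push_cast; ring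
  · have h2 : (1 - (2 : ℝ) • (P - vecMulVec v v))
        = (1 - (2 : ℝ) • P) * (1 - (2 : ℝ) • vecMulVec v v) := by
      rw [Matrix.sub_mul, Matrix.mul_sub, Matrix.mul_sub, Matrix.one_mul, Matrix.mul_one,
        Matrix.one_mul, Matrix.smul_mul, Matrix.mul_smul, e1]
      simp only [smul_sub, two_smul]
      abel
    have h3 : (1 - (2 : ℝ) • vecMulVec v v).det = -1 := by
      have h4 : (1 - (2 : ℝ) • vecMulVec v v)
          = 1 + Matrix.replicateCol Unit ((-2 : ℝ) • v) * Matrix.replicateRow Unit v := by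
        rw [← Matrix.vecMulVec_eq Unit, Matrix.smul_vecMulVec, neg_smul, sub_eq_add_neg]
      rw [h4, Matrix.det_one_add_replicateCol_mul_replicateRow, dotProduct_smul, h1]
      norm_num
    rw [h2, Matrix.det_mul, hP.det, h3, pow_succ]
    ring

/-- two matrices, as a double sum -/
lemma sum_eq_trace (A B : Matrix (Fin n) (Fin n) ℝ) :
    ∑ i, ∑ l, A i l * B i l = (A * B.transpose).trace := by
  simp only [Matrix.trace, Matrix.diag, Matrix.mul_apply, Matrix.transpose_apply]

lemma sum_eq_trace' (A B : Matrix (Fin n) (Fin n) ℝ) :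
    ∑ i, ∑ l, A i l * B l i = (A * B).trace := by
  simp only [Matrix.trace, Matrix.diag, Matrix.mul_apply]

lemma quad_eq (A : Matrix (Fin n) (Fin n) ℝ) (x : Fin n → ℝ) :
    ∑ i, ∑ l, x i * x l * A i l = x ⬝ᵥ (A *ᵥ x) := by
  simp only [dotProduct, Matrix.mulVec, Finset.mul_sum]
  refine Finset.sum_congr rfl fun i _ => Finset.sum_congr rfl fun l _ => ?_
  ring

/-- The moment lemma for the Gaussian measure on the range of `P`. -/
theorem moment_P {κ : Type*} [Fintype κ] {P : Matrix (Fin n) (Fin n) ℝ} {N : ℕ} (hP : IsPr P N)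
    (A B : κ → Matrix (Fin n) (Fin n) ℝ) (hB1 : ∀ m, P * B m = B m) (hB2 : ∀ m, B m * P = B m)
    (h : ∀ x : Fin n → ℝ, P *ᵥ x = x →
      0 ≤ ∑ m, (∑ i, ∑ l, x i * x l * A m i l) * (∑ a, ∑ b, x a * x b * B m a b)) :
    0 ≤ ∑ m, ((∑ i, ∑ l, P i l * A m i l) * (∑ a, B m a a)
      + ∑ i, ∑ l, A m i l * (B m i l + B m l i)) := by
  have h0 := moment (fun m => P * A m * P) B (fun x => by
    refine (h (P *ᵥ x) (by rw [Matrix.mulVec_mulVec, hP.idem])).trans_eq ?_
    refine Finset.sum_congr rfl fun m _ => ?_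
    rw [quad_eq, quad_eq, quad_eq, quad_eq]
    have hvP : ∀ y z : Fin n → ℝ, (P *ᵥ y) ⬝ᵥ z = y ⬝ᵥ (P *ᵥ z) := by
      intro y z
      rw [Matrix.dotProduct_mulVec, ← Matrix.mulVec_transpose, hP.symm]
    rw [hvP, hvP, Matrix.mulVec_mulVec, Matrix.mulVec_mulVec, Matrix.mulVec_mulVec,
      Matrix.mulVec_mulVec, Matrix.mul_assoc, hB1, hB2])
  refine h0.trans_eq ?_
  refine Finset.sum_congr rfl fun m _ => ?_
  congr 1
  · congr 1
    have e1 : ∑ i, (P * A m * P) i i = (P * A m * P).trace := rfl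
    have e2 : ∑ i, ∑ l, P i l * A m i l = (P * (A m).transpose).trace := sum_eq_trace _ _
    rw [e1, e2, Matrix.trace_mul_comm, ← Matrix.mul_assoc, hP.idem,
      ← Matrix.trace_transpose (P * (A m).transpose), Matrix.transpose_mul,
      Matrix.transpose_transpose, hP.symm, Matrix.trace_mul_comm]
  · simp only [mul_add, Finset.sum_add_distrib]
    rw [sum_eq_trace, sum_eq_trace', sum_eq_trace, sum_eq_trace']
    have hT : P * (B m).transpose = (B m).transpose := by
      conv_lhs => rw [← hP.symm]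
      rw [← Matrix.transpose_mul, hB2]
    have hT2 : (B m).transpose * P = (B m).transpose := by
      conv_lhs => rw [← hP.symm]
      rw [← Matrix.transpose_mul, hB1]
    congr 1
    · rw [Matrix.mul_assoc, hT, Matrix.mul_assoc, Matrix.trace_mul_comm, Matrix.mul_assoc, hT2]
    · rw [Matrix.mul_assoc, hB1, Matrix.mul_assoc, Matrix.trace_mul_comm, Matrix.mul_assoc, hB2]

end Pool.Agent.H91.OC
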