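import Pool.Agent.H91.OC.Univ

set_option autoImplicit false

/-!
# The averaging step: from degree `q + 2` to degree `q + 3`
-/

namespace Pool.Agent.H91.OC

open Pool.Agent.H61.YP Pool.Agent.H8.RG
open scoped BigOperators RealInnerProductSpace
open Matrix

variable {n : ℕ}

/-- third contractions -/
noncomputable def Hm {q : ℕ} (ω : Form n (q + 3)) (a b l j i k : Fin n) : ℝ :=
  ip (((ω.curryLeft (e a)).curryLeft (e l)).curryLeft (e j))
    (((ω.curryLeft (e b)).curryLeft (e i)).curryLeft (e k))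

noncomputable def Hmat {q : ℕ} (ω : Form n (q + 3)) (l j i k : Fin n) :
    Matrix (Fin n) (Fin n) ℝ := Matrix.of fun a b => Hm ω a b l j i k

lemma Hm_comm {q : ℕ} (ω : Form n (q + 3)) (a b l j i k : Fin n) :
    Hm ω a b l j i k = Hm ω b a i k l j := ip_comm _ _

lemma Hm_absorb {P : Matrix (Fin n) (Fin n) ℝ} {q : ℕ} {ω : Form n (q + 3)}
    (h : Lives P ω) (c b l j i k : Fin n) :
    ∑ a, P a c * Hm ω a b l j i k = Hm ω c b l j i k := by
  unfold Hm
  rw [← ip_sum_left]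
  congr 1
  rw [← curry_sum (fun a => P a c) (fun a => (ω.curryLeft (e a)).curryLeft (e l)) (e j),
    ← curry_sum (fun a => P a c) (fun a => ω.curryLeft (e a)) (e l), h c]

lemma P_Hmat {P : Matrix (Fin n) (Fin n) ℝ} {N : ℕ} (hP : IsPr P N) {q : ℕ}
    {ω : Form n (q + 3)} (h : Lives P ω) (l j i k : Fin n) :
    P * Hmat ω l j i k = Hmat ω l j i k := by
  ext c b
  rw [Matrix.mul_apply]
  have h1 : ∀ a, P c a = P a c := fun a => congrFun (congrFun hP.symm.symm c) a
  simp only [Hmat, Matrix.of_apply, h1]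
  exact Hm_absorb h c b l j i k

lemma Hmat_P {P : Matrix (Fin n) (Fin n) ℝ} {q : ℕ}
    {ω : Form n (q + 3)} (h : Lives P ω) (l j i k : Fin n) :
    Hmat ω l j i k * P = Hmat ω l j i k := by
  ext a c
  rw [Matrix.mul_apply]
  simp only [Hmat, Matrix.of_apply]
  rw [Hm_comm ω a c, ← Hm_absorb h c a i k l j]
  refine Finset.sum_congr rfl fun b _ => ?_
  rw [Hm_comm ω a b, mul_comm]

lemma curry_rot {q : ℕ} (ω : Form n (q + 3)) (x y z : E n) :
    ((ω.curryLeft x).curryLeft y).curryLeft z = ((ω.curryLeft y).curryLeft z).curryLeft x := by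
  rw [curry_swap ω x y]
  have h1 : (-(ω.curryLeft y).curryLeft x).curryLeft z
      = -(((ω.curryLeft y).curryLeft x).curryLeft z) := by
    ext v
    simp [AlternatingMap.curryLeft_apply_apply]
  rw [h1, curry_swap (ω.curryLeft y) x z, neg_neg]

lemma Hm_trace {q : ℕ} (ω : Form n (q + 3)) (l j i k : Fin n) :
    ∑ a, Hm ω a a l j i k = Gm ω l j i k := by
  unfold Hm Gm
  rw [ip_succ]
  refine Finset.sum_congr rfl fun a _ => ?_
  rw [curry_rot ω (e a) (e l) (e j), curry_rot ω (e a) (e i) (e k)]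

lemma ip_sum_right {q : ℕ} (f : Fin n → Form n q) (c : Fin n → ℝ) (ψ : Form n q) :
    ip ψ (∑ a, c a • f a) = ∑ a, c a * ip ψ (f a) := by
  rw [ip_comm, ip_sum_left]
  exact Finset.sum_congr rfl fun a _ => by rw [ip_comm]

lemma Hm_expand {q : ℕ} (ω : Form n (q + 3)) (x : Fin n → ℝ) (l j i k : Fin n) :
    ∑ a, ∑ b, x a * x b * Hm ω a b l j i k = Gm (ω.curryLeft (vec x)) l j i k := by
  have h0 : ω.curryLeft (vec x) = ∑ a, x a • ω.curryLeft (e a) := by
    conv_lhs => rw [← sum_coord (vec x)]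
    simp only [map_sum, map_smul, vec_apply]
  have h1 : ∀ l j : Fin n, ((ω.curryLeft (vec x)).curryLeft (e l)).curryLeft (e j)
      = ∑ a, x a • ((ω.curryLeft (e a)).curryLeft (e l)).curryLeft (e j) := by
    intro l j
    rw [h0, curry_sum x (fun a => ω.curryLeft (e a)) (e l),
      curry_sum x (fun a => (ω.curryLeft (e a)).curryLeft (e l)) (e j)]
  unfold Gm Hm
  rw [h1, h1, ip_sum_left]
  refine Finset.sum_congr rfl fun a _ => ?_
  rw [ip_sum_right, Finset.mul_sum]
  refine Finset.sum_congr rfl fun b _ => ?_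
  ring

lemma MB_smul {q : ℕ} (c : ℝ) (ω : Form n (q + 1)) (x y : E n) :
    MB (c • ω) x y = c ^ 2 * MB ω x y := by
  rw [MB_apply, MB_apply, AlternatingMap.curryLeft_smul]
  simp only [LinearMap.smul_apply]
  rw [ip_smul_left, ip_comm, ip_smul_left, ip_comm]
  ring

lemma Gm_smul {q : ℕ} (c : ℝ) (ω : Form n (q + 2)) (a j b k : Fin n) :
    Gm (c • ω) a j b k = c ^ 2 * Gm ω a j b k := by
  unfold Gm
  rw [AlternatingMap.curryLeft_smul]
  simp only [LinearMap.smul_apply, AlternatingMap.curryLeft_smul]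
  rw [ip_smul_left, ip_comm, ip_smul_left, ip_comm]
  ring

lemma QA_smul {q : ℕ} (w : Fin n → Fin n → Fin n → Fin n → ℝ) (c : ℝ) (ω : Form n (q + 2)) :
    QA w (c • ω) = c ^ 2 * QA w ω := by
  unfold QA
  simp_rw [Gm_smul, Finset.mul_sum]
  refine Finset.sum_congr rfl fun i _ => Finset.sum_congr rfl fun j _ =>
    Finset.sum_congr rfl fun k _ => Finset.sum_congr rfl fun l _ => ?_
  ring

lemma rP_smul {q : ℕ} (w : Fin n → Fin n → Fin n → Fin n → ℝ)
    (P : Matrix (Fin n) (Fin n) ℝ) (c : ℝ) (ω : Form n (q + 1)) :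
    rP w P (c • ω) = c ^ 2 * rP w P ω := by
  unfold rP
  simp_rw [MB_smul, Finset.mul_sum]
  refine Finset.sum_congr rfl fun j _ => Finset.sum_congr rfl fun k _ => ?_
  ring

/-- `⟨W_x, M⟩` -/
noncomputable def tW {q : ℕ} (w : Fin n → Fin n → Fin n → Fin n → ℝ)
    (x : Fin n → ℝ) (ω : Form n (q + 1)) : ℝ :=
  ∑ j, ∑ k, (∑ i, ∑ l, x i * x l * w i j k l) * MB ω (e j) (e k)

lemma rP_sub {q : ℕ} (w : Fin n → Fin n → Fin n → Fin n → ℝ)
    (P : Matrix (Fin n) (Fin n) ℝ) (x : Fin n → ℝ) (ω : Form n (q + 1)) :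
    rP w (P - vecMulVec x x) ω = rP w P ω - tW w x ω := by
  unfold rP tW
  rw [← Finset.sum_sub_distrib]
  refine Finset.sum_congr rfl fun j _ => ?_
  rw [← Finset.sum_sub_distrib]
  refine Finset.sum_congr rfl fun k _ => ?_
  rw [← sub_mul, ← Finset.sum_sub_distrib]
  congr 1
  refine Finset.sum_congr rfl fun i _ => ?_
  rw [← Finset.sum_sub_distrib]
  refine Finset.sum_congr rfl fun l _ => ?_
  simp only [Matrix.sub_apply, vecMulVec_apply]
  ring

lemma tW_smul {q : ℕ} (w : Fin n → Fin n → Fin n → Fin n → ℝ) (c d : ℝ)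
    (x : Fin n → ℝ) (ω : Form n (q + 1)) :
    tW w (c • x) (d • ω) = c ^ 2 * d ^ 2 * tW w x ω := by
  unfold tW
  simp_rw [MB_smul, Finset.mul_sum, Finset.sum_mul, Finset.mul_sum]
  refine Finset.sum_congr rfl fun j _ => Finset.sum_congr rfl fun k _ =>
    Finset.sum_congr rfl fun i _ => Finset.sum_congr rfl fun l _ => ?_
  simp only [Pi.smul_apply, smul_eq_mul]
  ring

lemma tW_nonneg {q : ℕ} {w : Fin n → Fin n → Fin n → Fin n → ℝ} (h : IsCurv w)
    (hpos : ∀ x v : Fin n → ℝ,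
      0 ≤ ∑ j, ∑ k, v j * v k * (∑ i, ∑ l, x i * x l * w i j k l))
    (x : Fin n → ℝ) (ω : Form n (q + 1)) : 0 ≤ tW w x ω := by
  refine sum_mul_nonneg (fun j k => ∑ i, ∑ l, x i * x l * w i j k l)
    (fun j k => MB ω (e j) (e k)) (by
      intro j k
      rw [Finset.sum_comm]
      refine Finset.sum_congr rfl fun i _ => Finset.sum_congr rfl fun l _ => ?_
      rw [h.flip l j k i]; ring) (hpos x) (fun j k => MB_comm _ _ _) (by
      intro v
      have h2 := bilin_expand (MB ω) (vec v) (vec v)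
      simp only [vec_apply] at h2
      rw [← h2]
      exact ip_self_nonneg _)

/-- the matrix of `r_P(i_x ω) - 3 U Q(i_x ω)` -/
noncomputable def Bn {q : ℕ} (w : Fin n → Fin n → Fin n → Fin n → ℝ)
    (P : Matrix (Fin n) (Fin n) ℝ) (U : ℝ) (ω : Form n (q + 3)) : Matrix (Fin n) (Fin n) ℝ :=
  (∑ j, ∑ k, (∑ i, ∑ l, P i l * w i j k l) • Gmat ω j k)
    - (3 * U) • ∑ i, ∑ j, ∑ k, ∑ l, w i j k l • Hmat ω l j i k

lemma Bn_apply {q : ℕ} (w : Fin n → Fin n → Fin n → Fin n → ℝ)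
    (P : Matrix (Fin n) (Fin n) ℝ) (U : ℝ) (ω : Form n (q + 3)) (a b : Fin n) :
    Bn w P U ω a b = (∑ j, ∑ k, (∑ i, ∑ l, P i l * w i j k l) * Gm ω a j b k)
      - 3 * U * ∑ i, ∑ j, ∑ k, ∑ l, w i j k l * Hm ω a b l j i k := by
  unfold Bn
  simp only [Matrix.sub_apply, Matrix.smul_apply, smul_eq_mul, Matrix.sum_apply, Gmat, Hmat,
    Matrix.of_apply]

lemma Bn_quad {q : ℕ} (w : Fin n → Fin n → Fin n → Fin n → ℝ)
    (P : Matrix (Fin n) (Fin n) ℝ) (U : ℝ) (ω : Form n (q + 3)) (x : Fin n → ℝ) :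
    ∑ a, ∑ b, x a * x b * Bn w P U ω a b
      = rP w P (ω.curryLeft (vec x)) - 3 * (U * QA w (ω.curryLeft (vec x))) := by
  have hG : ∀ j k, x ⬝ᵥ (Gmat ω j k *ᵥ x) = MB (ω.curryLeft (vec x)) (e j) (e k) := by
    intro j k
    rw [← quad_eq, ← Gm_expand]
    rfl
  have hH : ∀ l j i k, x ⬝ᵥ (Hmat ω l j i k *ᵥ x) = Gm (ω.curryLeft (vec x)) l j i k := by
    intro l j i k
    rw [← quad_eq, ← Hm_expand]
    rfl
  rw [quad_eq]
  unfold Bn
  simp only [Matrix.sub_mulVec, Matrix.smul_mulVec, Matrix.sum_mulVec, dotProduct_sub,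
    dotProduct_smul, dotProduct_sum, smul_eq_mul, hG, hH]
  unfold rP QA
  ring

lemma Bn_trace {q : ℕ} (w : Fin n → Fin n → Fin n → Fin n → ℝ)
    (P : Matrix (Fin n) (Fin n) ℝ) (U : ℝ) (ω : Form n (q + 3)) :
    (Bn w P U ω).trace = rP w P ω - 3 * (U * QA w ω) := by
  have hG : ∀ j k, (Gmat ω j k).trace = MB ω (e j) (e k) := fun j k => Gm_trace ω j k
  have hH : ∀ l j i k, (Hmat ω l j i k).trace = Gm ω l j i k :=
    fun l j i k => Hm_trace ω l j i k
  unfold Bn
  simp only [Matrix.trace_sub, Matrix.trace_smul, Matrix.trace_sum, smul_eq_mul, hG, hH]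
  unfold rP QA
  ring

lemma P_Bn {P : Matrix (Fin n) (Fin n) ℝ} {N : ℕ} (hP : IsPr P N) {q : ℕ}
    (w : Fin n → Fin n → Fin n → Fin n → ℝ) (U : ℝ) {ω : Form n (q + 3)} (h : Lives P ω) :
    P * Bn w P U ω = Bn w P U ω := by
  unfold Bn
  simp only [Matrix.mul_sub, Matrix.mul_smul, Matrix.mul_sum, P_Gmat hP h, P_Hmat hP h]

lemma Bn_P {P : Matrix (Fin n) (Fin n) ℝ} {q : ℕ}
    (w : Fin n → Fin n → Fin n → Fin n → ℝ) (U : ℝ) {ω : Form n (q + 3)} (h : Lives P ω) :
    Bn w P U ω * P = Bn w P U ω := by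
  unfold Bn
  simp only [Matrix.sub_mul, Matrix.smul_mul, Matrix.sum_mul, Gmat_P h, Hmat_P h]

/-- **The averaging step.** -/
theorem step {q : ℕ} {w : Fin n → Fin n → Fin n → Fin n → ℝ} (h : IsCurv w)
    {P : Matrix (Fin n) (Fin n) ℝ} {N : ℕ} (hP : IsPr P N)
    (ω : Form n (q + 3)) (hL : Lives P ω) (U : ℝ)
    (IH : ∀ x : Fin n → ℝ, P *ᵥ x = x → x ⬝ᵥ x = 1 →
      3 * (U * QA w (ω.curryLeft (vec x)))
        ≤ rP w (P - vecMulVec x x) (ω.curryLeft (vec x))) :
    3 * ((((N : ℝ) + 2) * U + 1) * QA w ω) ≤ ((N : ℝ) + 1) * rP w P ω := by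
  have hm := moment_P (κ := Option (Fin n × Fin n)) hP
    (fun m => match m with
      | none => P
      | some m => Matrix.of fun i l => w i m.1 m.2 l)
    (fun m => match m with
      | none => Bn w P U ω
      | some m => -Gmat ω m.1 m.2)
    (fun m => by
      match m with
      | none => exact P_Bn hP w U hL
      | some m => simp only [Matrix.mul_neg, P_Gmat hP hL])
    (fun m => by
      match m with
      | none => exact Bn_P w U hL
      | some m => simp only [Matrix.neg_mul, Gmat_P hL])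
    (fun x hx => by
      rw [Fintype.sum_option]
      simp only
      rw [Fintype.sum_prod_type, Bn_quad]
      have h1 : ∑ i, ∑ l, x i * x l * P i l = x ⬝ᵥ x := by rw [quad_eq, hx]
      rw [h1]
      have h2 : ∑ j, ∑ k, (∑ i, ∑ l, x i * x l * (Matrix.of fun i l => w i j k l) i l) *
          (∑ a, ∑ b, x a * x b * (-Gmat ω j k) a b) = - tW w x (ω.curryLeft (vec x)) := by
        unfold tW
        rw [← Finset.sum_neg_distrib]
        refine Finset.sum_congr rfl fun j _ => ?_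
        rw [← Finset.sum_neg_distrib]
        refine Finset.sum_congr rfl fun k _ => ?_
        rw [← Gm_expand]
        simp only [Matrix.of_apply, Matrix.neg_apply, Gmat, mul_neg, Finset.sum_neg_distrib]
      rw [h2]
      by_cases hx0 : x = 0
      · subst hx0
        have h3 : tW w (0 : Fin n → ℝ) (ω.curryLeft (vec 0)) = 0 := by
          unfold tW; simp
        rw [h3]; simp
      · have hS : 0 < x ⬝ᵥ x := by
          have h3 : 0 ≤ x ⬝ᵥ x := Finset.sum_nonneg fun i _ => mul_self_nonneg _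
          have h4 : x ⬝ᵥ x ≠ 0 := fun h5 => hx0 (dotProduct_self_eq_zero.mp h5)
          exact lt_of_le_of_ne h3 (Ne.symm h4)
        set S : ℝ := x ⬝ᵥ x with hSd
        set c : ℝ := (Real.sqrt S)⁻¹ with hc
        have hc2 : c ^ 2 = S⁻¹ := by
          rw [hc, inv_pow, Real.sq_sqrt hS.le]
        have h5 := IH (c • x) (by rw [Matrix.mulVec_smul, hx]) (by
          rw [smul_dotProduct, dotProduct_smul, ← hSd, smul_eq_mul, smul_eq_mul, ← mul_assoc,
            ← sq, hc2, inv_mul_cancel₀ hS.ne'])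
        have hv : (vec (c • x) : E n) = c • vec x := by
          ext i; simp
        rw [hv, map_smul, rP_sub, QA_smul, rP_smul, tW_smul, hc2] at h5
        have h6 := mul_le_mul_of_nonneg_left h5 (by positivity : (0 : ℝ) ≤ S ^ 2)
        have h7 : S ^ 2 * (3 * (U * (S⁻¹ * QA w (ω.curryLeft (vec x)))))
            = S * (3 * (U * QA w (ω.curryLeft (vec x)))) := by
          field_simp
        have h8 : S ^ 2 * (S⁻¹ * rP w P (ω.curryLeft (vec x))
            - S⁻¹ * S⁻¹ * tW w x (ω.curryLeft (vec x)))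
            = S * rP w P (ω.curryLeft (vec x)) - tW w x (ω.curryLeft (vec x)) := by
          field_simp
        rw [h7, h8] at h6
        linarith)
  rw [Fintype.sum_option] at hm
  simp only at hm
  rw [Fintype.sum_prod_type] at hm
  have e1 : ∑ i, ∑ l, P i l * P i l = (N : ℝ) := by
    rw [sum_eq_trace, hP.symm, hP.idem, hP.trace]
  have e2 : ∑ a, Bn w P U ω a a = rP w P ω - 3 * (U * QA w ω) := Bn_trace w P U ω
  have e3 : ∑ i, ∑ l, P i l * (Bn w P U ω i l + Bn w P U ω l i)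
      = 2 * (rP w P ω - 3 * (U * QA w ω)) := by
    simp only [mul_add, Finset.sum_add_distrib]
    rw [sum_eq_trace, sum_eq_trace', P_Bn hP w U hL]
    have h4 : P * (Bn w P U ω).transpose = (Bn w P U ω).transpose := by
      have h5 := congrArg Matrix.transpose (Bn_P w U hL)
      rwa [Matrix.transpose_mul, hP.symm] at h5
    rw [h4, Matrix.trace_transpose, Bn_trace]
    ring
  rw [e1, e2, e3] at hm
  have e4 : ∑ j, ∑ k, ((∑ i, ∑ l, P i l * (Matrix.of fun i l => w i j k l) i l) *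
        (∑ a, (-Gmat ω j k) a a)
        + ∑ i, ∑ l, (Matrix.of fun i l => w i j k l) i l *
          ((-Gmat ω j k) i l + (-Gmat ω j k) l i))
      = - (rP w P ω + 3 * QA w ω) := by
    rw [← sum3 h]
    unfold rP
    simp only [Matrix.of_apply, Matrix.neg_apply, Gmat, Finset.sum_neg_distrib, Gm_trace,
      Finset.sum_add_distrib, mul_neg, mul_add, neg_add]
  rw [e4] at hm
  nlinarith [hm]

end Pool.Agent.H91.OC
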