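import Pool.Agent.H91.OC.Proj

set_option autoImplicit false

/-!
# The second contraction bound on the range of a projection
-/

namespace Pool.Agent.H91.OC

open Pool.Agent.H61.YP Pool.Agent.H8.RG
open scoped BigOperators RealInnerProductSpace
open Matrix

variable {n : ℕ}

/-- `ω` lives on the range of `P` -/
def Lives (P : Matrix (Fin n) (Fin n) ℝ) {q : ℕ} (ω : Form n (q + 1)) : Prop :=
  ∀ i, ∑ a, P a i • ω.curryLeft (e a) = ω.curryLeft (e i)

/-- `⟨tr_P W, M⟩` -/
noncomputable def rP {q : ℕ} (w : Fin n → Fin n → Fin n → Fin n → ℝ)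
    (P : Matrix (Fin n) (Fin n) ℝ) (ω : Form n (q + 1)) : ℝ :=
  ∑ j, ∑ k, (∑ i, ∑ l, P i l * w i j k l) * MB ω (e j) (e k)

lemma curry_sum {q : ℕ} (c : Fin n → ℝ) (f : Fin n → Form n (q + 1)) (x : E n) :
    (∑ a, c a • f a).curryLeft x = ∑ a, c a • (f a).curryLeft x := by
  have h1 : (∑ a, c a • f a).curryLeft = ∑ a, c a • (f a).curryLeft := by
    have h2 := map_sum (AlternatingMap.curryLeftLinearMap (R := ℝ) (M := E n) (N := ℝ) (n := q))
      (fun a => c a • f a) Finset.univ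
    exact h2
  rw [h1]
  simp

lemma Lives.curry {P : Matrix (Fin n) (Fin n) ℝ} {q : ℕ} {ω : Form n (q + 2)}
    (h : Lives P ω) (x : E n) : Lives P (ω.curryLeft x) := by
  intro i
  have h1 : -((∑ a, P a i • ω.curryLeft (e a)).curryLeft x) = -((ω.curryLeft (e i)).curryLeft x) := by
    rw [h i]
  rw [curry_swap ω x (e i), ← h1]
  have h2 : ∀ a, (ω.curryLeft x).curryLeft (e a) = -((ω.curryLeft (e a)).curryLeft x) :=
    fun a => curry_swap ω x (e a)
  simp_rw [h2]
  rw [curry_sum (fun a => P a i) (fun a => ω.curryLeft (e a)) x, ← Finset.sum_neg_distrib]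
  exact Finset.sum_congr rfl fun a _ => smul_neg _ _

lemma ip_sum_left {q : ℕ} (f : Fin n → Form n q) (c : Fin n → ℝ) (ψ : Form n q) :
    ip (∑ a, c a • f a) ψ = ∑ a, c a * ip (f a) ψ := by
  have hB := ipB_apply (∑ a, c a • f a) ψ
  rw [← hB]
  simp only [map_sum, map_smul, LinearMap.sum_apply, LinearMap.smul_apply, smul_eq_mul,
    ipB_apply]

/-- second contractions as a matrix in the first contraction vectors -/
noncomputable def Gmat {q : ℕ} (ω : Form n (q + 2)) (j k : Fin n) :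
    Matrix (Fin n) (Fin n) ℝ := Matrix.of fun a b => Gm ω a j b k

lemma Gm_absorb {P : Matrix (Fin n) (Fin n) ℝ} {q : ℕ} {ω : Form n (q + 2)}
    (h : Lives P ω) (i j b k : Fin n) : ∑ a, P a i * Gm ω a j b k = Gm ω i j b k := by
  unfold Gm
  rw [← ip_sum_left]
  congr 1
  have h1 : (∑ a, P a i • ω.curryLeft (e a)).curryLeft (e j) = (ω.curryLeft (e i)).curryLeft (e j) := by
    rw [h i]
  rw [← h1, curry_sum (fun a => P a i) (fun a => ω.curryLeft (e a)) (e j)]

lemma MB_absorb {P : Matrix (Fin n) (Fin n) ℝ} {q : ℕ} {ω : Form n (q + 1)}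
    (h : Lives P ω) (i k : Fin n) : ∑ a, P a i * MB ω (e a) (e k) = MB ω (e i) (e k) := by
  simp only [MB_apply]
  rw [← ip_sum_left, h i]

lemma P_Gmat {P : Matrix (Fin n) (Fin n) ℝ} {N : ℕ} (hP : IsPr P N) {q : ℕ}
    {ω : Form n (q + 2)} (h : Lives P ω) (j k : Fin n) : P * Gmat ω j k = Gmat ω j k := by
  ext i b
  rw [Matrix.mul_apply]
  have h1 : ∀ a, P i a = P a i := fun a => congrFun (congrFun hP.symm.symm i) a
  simp only [Gmat, Matrix.of_apply, h1]
  exact Gm_absorb h i j b k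

lemma Gmat_P {P : Matrix (Fin n) (Fin n) ℝ} {q : ℕ}
    {ω : Form n (q + 2)} (h : Lives P ω) (j k : Fin n) : Gmat ω j k * P = Gmat ω j k := by
  ext a i
  rw [Matrix.mul_apply]
  simp only [Gmat, Matrix.of_apply]
  rw [Gm_comm ω a j i k, ← Gm_absorb h i k a j]
  refine Finset.sum_congr rfl fun b _ => ?_
  rw [Gm_comm ω a j b k, mul_comm]

lemma sum3 {q : ℕ} {w : Fin n → Fin n → Fin n → Fin n → ℝ} (h : IsCurv w)
    (ω : Form n (q + 2)) :
    ∑ j, ∑ k, ∑ i, ∑ l, w i j k l * (Gm ω i j l k + Gm ω l j i k) = 3 * QA w ω := by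
  have perm : ∀ f : Fin n → Fin n → Fin n → Fin n → ℝ,
      ∑ j, ∑ k, ∑ i, ∑ l, f i j k l = ∑ i, ∑ j, ∑ k, ∑ l, f i j k l := by
    intro f
    rw [rot3 (fun i j k l => f i j k l)]
  simp_rw [mul_add, Finset.sum_add_distrib]
  rw [perm (fun i j k l => w i j k l * Gm ω i j l k), H4_eq h,
    perm (fun i j k l => w i j k l * Gm ω l j i k)]
  unfold QA
  ring

/-- the second contraction bound on the range of a projection of rank `N`:
`3 (q+1) Q ≤ (N + 1 - q) r_P`. -/
theorem univ {q : ℕ} {w : Fin n → Fin n → Fin n → Fin n → ℝ} (h : IsCurv w)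
    (hpos : ∀ x v : Fin n → ℝ,
      0 ≤ ∑ j, ∑ k, v j * v k * (∑ i, ∑ l, x i * x l * w i j k l))
    {P : Matrix (Fin n) (Fin n) ℝ} {N : ℕ} (hP : IsPr P N)
    (ω : Form n (q + 2)) (hL : Lives P ω) :
    3 * (((q : ℝ) + 1) * QA w ω) ≤ ((N : ℝ) + 1 - q) * rP w P ω := by
  have hm := moment_P (κ := Fin n × Fin n) hP
    (fun m => Matrix.of fun i l => w i m.1 m.2 l)
    (fun m => MB ω (e m.1) (e m.2) • P - ((q : ℝ) + 1) • Gmat ω m.1 m.2)
    (fun m => by
      rw [Matrix.mul_sub, Matrix.mul_smul, Matrix.mul_smul, hP.idem, P_Gmat hP hL])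
    (fun m => by
      rw [Matrix.sub_mul, Matrix.smul_mul, Matrix.smul_mul, hP.idem, Gmat_P hL])
    (fun x hx => by
      rw [Fintype.sum_prod_type]
      have hY : ∀ j k : Fin n, ∑ a, ∑ b, x a * x b *
          (MB ω (e j) (e k) • P - ((q : ℝ) + 1) • Gmat ω j k) a b
          = ∑ a, ∑ b, x a * x b * Ym ω 0 1 a b j k := by
        intro j k
        have h1 : ∑ a, ∑ b, x a * x b * P a b = ∑ a, ∑ b, x a * x b * dl a b := by
          rw [quad_eq, hx]
          simp only [dotProduct]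
          refine Finset.sum_congr rfl fun a _ => ?_
          simp [dl]
        have h2 : ∀ a b, x a * x b * (MB ω (e j) (e k) • P - ((q : ℝ) + 1) • Gmat ω j k) a b
            = MB ω (e j) (e k) * (x a * x b * P a b)
              - ((q : ℝ) + 1) * (x a * x b * Gm ω a j b k) := by
          intro a b
          simp only [Matrix.sub_apply, Matrix.smul_apply, smul_eq_mul, Gmat, Matrix.of_apply]
          ring
        have h3 : ∀ a b, x a * x b * Ym ω 0 1 a b j k
            = MB ω (e j) (e k) * (x a * x b * dl a b)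
              - ((q : ℝ) + 1) * (x a * x b * Gm ω a j b k) := by
          intro a b
          unfold Ym
          ring
        simp_rw [h2, h3, Finset.sum_sub_distrib, ← Finset.mul_sum]
        rw [h1]
      simp only [hY]
      refine sum_mul_nonneg (fun j k => ∑ i, ∑ l, x i * x l * w i j k l)
        (fun j k => ∑ a, ∑ b, x a * x b * Ym ω 0 1 a b j k) ?_ (hpos x) ?_
        (Y_nonneg ω 0 1 le_rfl zero_le_one (by norm_num) x)
      · intro j k
        rw [Finset.sum_comm]
        refine Finset.sum_congr rfl fun i _ => Finset.sum_congr rfl fun l _ => ?_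
        rw [h.flip l j k i]; ring
      · intro j k
        rw [Ym_expand, Ym_expand, dl_comm j k, MB_comm ω (e j), MB_comm _ (e j)])
  rw [Fintype.sum_prod_type] at hm
  simp only [Matrix.of_apply] at hm
  have hT : ∀ j k : Fin n, ∑ a, (MB ω (e j) (e k) • P - ((q : ℝ) + 1) • Gmat ω j k) a a
      = ((N : ℝ) - ((q : ℝ) + 1)) * MB ω (e j) (e k) := by
    intro j k
    have h1 : ∑ a, P a a = (N : ℝ) := hP.trace
    simp only [Matrix.sub_apply, Matrix.smul_apply, smul_eq_mul, Gmat, Matrix.of_apply,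
      Finset.sum_sub_distrib, ← Finset.mul_sum]
    rw [h1, Gm_trace]
    ring
  have hS : ∀ j k : Fin n, ∑ i, ∑ l, w i j k l *
      ((MB ω (e j) (e k) • P - ((q : ℝ) + 1) • Gmat ω j k) i l
        + (MB ω (e j) (e k) • P - ((q : ℝ) + 1) • Gmat ω j k) l i)
      = 2 * ((∑ i, ∑ l, P i l * w i j k l) * MB ω (e j) (e k))
        - ((q : ℝ) + 1) * ∑ i, ∑ l, w i j k l * (Gm ω i j l k + Gm ω l j i k) := by
    intro j k
    have h1 : ∀ i l, w i j k l *
      ((MB ω (e j) (e k) • P - ((q : ℝ) + 1) • Gmat ω j k) i l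
        + (MB ω (e j) (e k) • P - ((q : ℝ) + 1) • Gmat ω j k) l i)
        = 2 * ((P i l * w i j k l) * MB ω (e j) (e k))
          - ((q : ℝ) + 1) * (w i j k l * (Gm ω i j l k + Gm ω l j i k)) := by
      intro i l
      have h2 : P l i = P i l := congrFun (congrFun hP.symm i) l
      simp only [Matrix.sub_apply, Matrix.smul_apply, smul_eq_mul, Gmat, Matrix.of_apply, h2]
      ring
    simp_rw [h1, Finset.sum_sub_distrib, ← Finset.mul_sum, ← Finset.sum_mul]
  simp_rw [hT, hS, Finset.sum_add_distrib, Finset.sum_sub_distrib, ← Finset.mul_sum] at hm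
  rw [sum3 h] at hm
  have hr : ∑ j, ∑ k, (∑ i, ∑ l, P i l * w i j k l) *
      (((N : ℝ) - ((q : ℝ) + 1)) * MB ω (e j) (e k))
      = ((N : ℝ) - ((q : ℝ) + 1)) * rP w P ω := by
    unfold rP
    simp_rw [Finset.mul_sum]
    refine Finset.sum_congr rfl fun j _ => Finset.sum_congr rfl fun k _ => ?_
    ring
  rw [hr] at hm
  have hr2 : ∑ j, ∑ k, (∑ i, ∑ l, P i l * w i j k l) * MB ω (e j) (e k) = rP w P ω := rfl
  rw [hr2] at hm
  linarith

end Pool.Agent.H91.OC
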